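import Mathlib
import Pool.Agent.V5helper61.UF.Lam

/-!
# Unit fraction representations of 1 without a gap larger than 2: finitely many

Let `x_1 < ... < x_k`, `k ≥ 2`, be positive integers with `1/x_1 + ... + 1/x_k = 1`.

(1) If `X = x_k` is large, there are at least `X / (log X) ^ C` integers `n` such that `n` and `n + 1` are
strictly between `x_1` and `x_k` and both are missing from the solution.

(2) So there are only finitely many solutions all of whose consecutive differences are at most `2`: Q1 holds
for `c = 2`.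

Proof. No `x_i` is divisible by a prime `p > x_k / B` if `p > B * B!`. Since `x_k ≥ e (x_1 - 1)` it is
enough to find consecutive integers `n = c p` and `n + 1 = (c + 1) q`, with `p` and `q` prime and `c`
bounded, in every window `[y, 2.7 y]`; `2.7 < e` is essential. We find them in every window `[y, η y]` with
`η > 13 / 5` (`Pool.Agent.V5helper61.UF.window`), from the coloured Maynard-Tao theorem with the
constant `18 / 5` of the starting library (`Pool.Agent.Y827.RO.lamR0`: of `T` classes of `K` linear forms more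
than `(5 / 18 - ε) T` contain a prime, at some `n` in `[N / 16, N]`), applied to forms `a n + 1` with positions such
that any two of them have consecutive multiples, of size `Q n / (g' - g)` for the classes `g < g'`: a set
of density larger than `1 / (1 + η)` has two members at a distance in `[L, η L]`, for whatever `L` the value
of `n` requires.
-/

set_option autoImplicit false

namespace Pool.Agent.Results.MP_0e3417_nt.GapsAtMostTwo

open Finset

theorem result :
    (∃ C X₀ : ℕ, ∀ S : Finset ℕ, 2 ≤ S.card → (∀ x ∈ S, 0 < x) →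
      (∑ x ∈ S, (1 : ℚ) / (x : ℚ)) = 1 → X₀ ≤ S.sup id →
      ((S.sup id : ℕ) : ℝ) / (Real.log (S.sup id : ℕ)) ^ C ≤
        (((Icc 1 (S.sup id)).filter (fun n => (∃ x ∈ S, x < n) ∧ n + 1 < S.sup id ∧
          n ∉ S ∧ n + 1 ∉ S)).card : ℝ)) ∧
    Set.Finite {S : Finset ℕ |
      2 ≤ S.card ∧ (∀ x ∈ S, 0 < x) ∧ (∑ x ∈ S, (1 : ℚ) / (x : ℚ)) = 1 ∧
      ∀ x ∈ S, ∀ y ∈ S, x < y → ∃ z ∈ S, x < z ∧ z ≤ x + 2} := by
  obtain ⟨C, X₀, h⟩ := Pool.Agent.V5helper61.UF.main Pool.Agent.V5helper61.UF.lamHyp
  refine ⟨⟨C, X₀, fun S h1 h2 h3 h4 => h S ⟨h1, h2, h3⟩ h4⟩, ?_⟩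
  refine (Pool.Agent.V5helper61.UF.gap_two h).subset ?_
  rintro S ⟨h1, h2, h3, h4⟩
  exact ⟨⟨h1, h2, h3⟩, h4⟩

end Pool.Agent.Results.MP_0e3417_nt.GapsAtMostTwo
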